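import Pool.Agent.Helper92.FG.Thm

/-!
# Elementary groups

The case of an infinite set `Λ` is due to helper66, the case of a finite set to helper92.
-/

namespace Pool.Agent.Results.MP_922865_al.ElementaryGroups

open Pool.Agent.Helper66.AI Pool.Agent.Helper92.FG

/-- Let `R` be an associative ring with `1`, let `Λ` be a set with at least three elements, and let
`PE_Λ(R)` be the quotient by its center of the group `E_Λ(R)` generated by the elementary
transvections `v ↦ v + v_b r e_a` (`a ≠ b` in `Λ`, `r ∈ R`) of the free left `R`-module with basis
`Λ`. Suppose that `Λ` is infinite, or that no finite subset `F` of `R` is a uniform insulator, i.e.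
for each finite subset `F` of `R` there are nonzero `u, v ∈ R` with `v F u = 0`. Then for every
field `P` the augmentation ideal of the group ring of `PE_Λ(R)` over `P` is a simple ring if and
only if `R` is a simple ring, `R` is infinite and the characteristics of `R` and `P` are
different. -/
theorem result (P : Type*) [Field P] (R : Type*) [Ring R] (Λ : Type*)
    (h3 : ∃ a b c : Λ, a ≠ b ∧ a ≠ c ∧ b ≠ c) (h : Infinite Λ ∨ NoInsulator R) :
    AugSimple P (PE R Λ) ↔ IsSimpleRing R ∧ Infinite R ∧ ringChar R ≠ ringChar P :=
  augSimple_PE_iff P R Λ h3 h

end Pool.Agent.Results.MP_922865_al.ElementaryGroups
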