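import Pool.Agent.Helper92.FG.FinalB

/-!
# Finitely generated groups with simple augmentation ideals

Sketch. Let `C` be a countable group and let `k` be the prime field of characteristic `p`. There is
a countable set of operators on a vector space over `k` which contains the scalars, permutations
some of whose commutators form a copy of `C`, and operators `s_c`, `t` with `s_c (c - 1) t = 1` for
`c ≠ 1` in `C`. Coding this set by one diagonal operator `D` one gets a ring with five generators
`x_0, x_1, y_0, y_1, D`, where `y_i x_j = δ_ij`, which contains the whole set. Let `R` be a simple
quotient of this ring. No finite subset of `R` is a uniform insulator (for each finite subset `F`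
there are nonzero `u`, `v` in `R` with `v F u = 0`), the quotient `H` of `E_3(R)` by its center is
finitely generated, and `C` embeds in `H`. The criterion for elementary groups applies to `H`.
-/

namespace Pool.Agent.Results.MP_922865_al.FinitelyGenerated

open Pool.Agent.Helper66.AI

universe u v

/-- Let `p` be zero or a prime. Every countable group embeds in a finitely generated group `H` such
that for every field `P` the augmentation ideal of the group ring of `H` over `P` is a simple ring
if and only if the characteristic of `P` is not `p`. -/
theorem result (p : ℕ) (hp : p = 0 ∨ p.Prime) (C : Type u) [Group C] [Countable C] :
    ∃ (H : Type u) (_ : Group H), Group.FG H ∧ (∃ f : C →* H, Function.Injective f) ∧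
      ∀ (P : Type v) [Field P], AugSimple P H ↔ ringChar P ≠ p :=
  Pool.Agent.Helper92.FG.exists_fg_group p hp C

end Pool.Agent.Results.MP_922865_al.FinitelyGenerated
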