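import Pool.Agent.Helper66.AI.Reduce

/-!
# Groups in which isomorphisms between finitely generated subgroups are conjugations
-/

namespace Pool.Agent.Results.MP_922865_al.InnerHomogeneous

open Pool.Agent.Helper66.AI

/-- Let `H` be a group such that every injective homomorphism of a finitely generated subgroup
`K` of `H` into `H` is induced by an inner automorphism of `H`, and such that `K × K` embeds
in `H` for every finitely generated subgroup `K`. Then for every field `P` the augmentation ideal
`A(PH)` is a simple ring if and only if `H` is a simple group. -/
theorem result (H : Type*) [Group H]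
    (hc : ∀ K : Subgroup H, K.FG → ∀ φ : K →* H, Function.Injective φ →
      ∃ y : H, ∀ k : K, φ k = y⁻¹ * (k : H) * y)
    (hs : ∀ K : Subgroup H, K.FG → ∃ φ : K × K →* H, Function.Injective φ)
    (P : Type*) [Field P] : AugSimple P H ↔ IsSimpleGroup H :=
  augSimple_iff P hc hs

end Pool.Agent.Results.MP_922865_al.InnerHomogeneous
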