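import Pool.Agent.Helper33.Aug.Rank2

/-!
# The projective special linear groups with simple augmentation ideal

`P` is any field, `F` any infinite field, `V` any vector space over `F` of dimension at least
two, finite or infinite, and `PSL(V)` is the group generated by all transvections of `V` modulo
its centre; for `dim V = n` finite this is `PSL_n(F)`. The augmentation ideal `A(P[PSL(V)])` is a
simple ring if and only if `P` and `F` have different characteristics.

Sketch for `char P ≠ char F`. Let a multiplicative map `ρ` from `SL_n(F)` to a `P`-algebra satisfy
`∑ a_j ρ(g_j) = 0` with `g_j` pairwise different modulo the centre and `g_0 = 1`. Conjugation by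
`z_s = diag(s^{n-1}, s⁻¹, …, s⁻¹)` in a general basis and the determinants of the matrices
`([χ_j(s_i)])` over the group algebra of an abelian group give a nonzero element of
`P[ker f × ker w]` which vanishes under `(x, y) ↦ ρ(1 + x ⊗ f) ρ(1 + w ⊗ y)`. Conjugation by
transvections (by the torus if `n = 2`) and the same determinants lead to a nonzero element of the
group algebra of a root subgroup which vanishes. The ideal of all such elements is invariant under
`F^×` (under its squares if `n = 2`); independence of characters shows that every prime over it
contains all `x - 1`, and then so does the ideal. The case `n = 2`, `char F = 2` needs an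
additional argument if `F` is not perfect. If `char P = char F`, the product of three elements
`t - 1`, with `t` in a root subgroup, vanishes in the adjoint representation over `P ⊗ F`.
-/

namespace Pool.Agent.Results.MP_922865_al.ProjectiveSpecialLinear

open Pool.Agent.Helper33.Aug

theorem result {P F V : Type*} [Field P] [Field F] [Infinite F] [AddCommGroup V] [Module F V]
    (hV : 2 ≤ Module.rank F V) :
    SimpleRng (augRing P (PSLV F V)) ↔ ringChar P ≠ ringChar F :=
  pslV2 hV

end Pool.Agent.Results.MP_922865_al.ProjectiveSpecialLinear
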